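import Pool.Agent.Lib_helper51.TM32.NDefs

/-!
TM32, block N4a: partial sums of the coefficients of `η(8z) η(16z)`.
-/

set_option autoImplicit false

namespace Pool.Agent.TM32

open Zsqrtd

private theorem n4a_norm (x : Zs) : x.norm = x.re ^ 2 + 2 * x.im ^ 2 := by
  rw [Zsqrtd.norm_def]; ring

private theorem n4a_mem (n k : ℕ) (hk : k ≤ n) :
    SN k = ((Finset.Icc (-(n : ℤ)) n ×ˢ Finset.Icc (-(n : ℤ)) n).map
    ⟨fun v => (⟨v.1, v.2⟩ : Zs), by
      rintro ⟨a, b⟩ ⟨c, d⟩ h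
      simp only [Zsqrtd.mk.injEq] at h
      rw [h.1, h.2]⟩).filter (fun x : Zs => x.norm = (k : ℤ)) := by
  have hk' : (k : ℤ) ≤ n := by exact_mod_cast hk
  ext x
  unfold SN
  rw [Finset.mem_filter, Finset.mem_filter, Finset.mem_map, Finset.mem_map]
  constructor
  · rintro ⟨⟨v, hv, rfl⟩, hx⟩
    refine ⟨⟨v, ?_, rfl⟩, hx⟩
    rw [Finset.mem_product, Finset.mem_Icc, Finset.mem_Icc] at hv ⊢
    omega
  · rintro ⟨⟨v, hv, rfl⟩, hx⟩
    refine ⟨⟨v, ?_, rfl⟩, hx⟩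
    have h1 : v.1 ^ 2 + 2 * v.2 ^ 2 = k := by
      have h2 := n4a_norm (⟨v.1, v.2⟩ : Zs)
      have h3 : (⟨v.1, v.2⟩ : Zs).norm = k := hx
      rw [h3] at h2
      exact h2.symm
    rw [Finset.mem_product, Finset.mem_Icc, Finset.mem_Icc]
    have a1 := sq_nonneg v.1
    have a2 := sq_nonneg v.2
    refine ⟨⟨?_, ?_⟩, ⟨?_, ?_⟩⟩
    · by_contra hc
      have : v.1 ≤ -1 := by omega
      nlinarith
    · by_contra hc
      have : 1 ≤ v.1 := by omega
      nlinarith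
    · by_contra hc
      have : v.2 ≤ -1 := by omega
      nlinarith
    · by_contra hc
      have : 1 ≤ v.2 := by omega
      nlinarith

private theorem n4a_sum (n k : ℕ) (hk : k ≤ n) : ∑ x ∈ SN k, kap x =
    ∑ a ∈ Finset.Icc (-(n : ℤ)) n, ∑ b ∈ Finset.Icc (-(n : ℤ)) n,
      if a ^ 2 + 2 * b ^ 2 = (k : ℤ) then kap (⟨a, b⟩ : Zs) else 0 := by
  rw [n4a_mem n k hk, Finset.sum_filter, Finset.sum_map, Finset.sum_product]
  refine Finset.sum_congr rfl fun a _ => Finset.sum_congr rfl fun b _ => ?_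
  have h2 := n4a_norm (⟨a, b⟩ : Zs)
  show (if (⟨a, b⟩ : Zs).norm = (k : ℤ) then kap (⟨a, b⟩ : Zs) else 0) = _
  rw [h2]

private noncomputable def n4a_F (n : ℕ) (a b : ℤ) : ℂ :=
  if 1 ≤ a ^ 2 + 2 * b ^ 2 ∧ a ^ 2 + 2 * b ^ 2 ≤ (n : ℤ) then kap (⟨a, b⟩ : Zs) else 0

private theorem n4a_total (n : ℕ) : ∑ k ∈ Finset.Icc 1 n, rr k =
    (∑ a ∈ Finset.Icc (-(n : ℤ)) n, ∑ b ∈ Finset.Icc (-(n : ℤ)) n, n4a_F n a b) / 2 := by
  unfold rr
  rw [← Finset.sum_div]
  congr 1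
  have h1 : ∑ k ∈ Finset.Icc 1 n, ∑ x ∈ SN k, kap x = ∑ k ∈ Finset.Icc 1 n,
      ∑ a ∈ Finset.Icc (-(n : ℤ)) n, ∑ b ∈ Finset.Icc (-(n : ℤ)) n,
      if a ^ 2 + 2 * b ^ 2 = (k : ℤ) then kap (⟨a, b⟩ : Zs) else 0 :=
    Finset.sum_congr rfl fun k hk => n4a_sum n k (Finset.mem_Icc.1 hk).2
  rw [h1, Finset.sum_comm]
  refine Finset.sum_congr rfl fun a _ => ?_
  rw [Finset.sum_comm]
  refine Finset.sum_congr rfl fun b _ => ?_
  unfold n4a_F
  split_ifs with h
  · have h0 : 0 ≤ a ^ 2 + 2 * b ^ 2 := by linarith [h.1]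
    obtain ⟨m, hm⟩ := Int.eq_ofNat_of_zero_le h0
    rw [hm] at h ⊢
    have hm1 : m ∈ Finset.Icc 1 n := by
      rw [Finset.mem_Icc]
      constructor
      · exact_mod_cast h.1
      · exact_mod_cast h.2
    rw [Finset.sum_eq_single_of_mem m hm1]
    · rw [if_pos rfl]
    · intro j _ hj
      rw [if_neg]
      intro hc
      exact hj (by exact_mod_cast hc.symm)
  · refine Finset.sum_eq_zero fun k hk => ?_
    rw [if_neg]
    intro hc
    apply h
    rw [Finset.mem_Icc] at hk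
    rw [hc]
    constructor
    · exact_mod_cast hk.1
    · exact_mod_cast hk.2

private theorem n4a_pair (a b : ℤ) (ha : a % 2 = 1) : kap (⟨a, b⟩ : Zs) + kap (⟨a, -b⟩ : Zs) =
    if b % 4 = 0 then 2 else if b % 4 = 2 then -2 else 0 := by
  unfold kap
  dsimp only
  have h0 : ¬ a % 2 = 0 := by omega
  rw [if_neg h0, if_neg h0]
  have hb : b % 4 = 0 ∨ b % 4 = 1 ∨ b % 4 = 2 ∨ b % 4 = 3 := by omega
  have ha4 : a % 4 = 1 ∨ a % 4 = 3 := by omega
  rcases hb with hb | hb | hb | hb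
  · have h1 : (-b) % 4 = 0 := by omega
    rw [if_pos hb, if_pos h1, if_pos hb]; norm_num
  · have h1 : (-b) % 4 = 3 := by omega
    have e1 : (a * b) % 4 = a % 4 := by rw [Int.mul_emod, hb]; omega
    have e2 : (a * -b) % 4 = (a % 4 * 3) % 4 := by rw [Int.mul_emod, h1]
    rw [e1, e2, hb, h1]
    rcases ha4 with h | h <;> rw [h] <;> norm_num
  · have h1 : (-b) % 4 = 2 := by omega
    rw [hb, h1]; norm_num
  · have h1 : (-b) % 4 = 1 := by omega
    have e1 : (a * b) % 4 = (a % 4 * 3) % 4 := by rw [Int.mul_emod, hb]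
    have e2 : (a * -b) % 4 = a % 4 := by rw [Int.mul_emod, h1]; omega
    rw [e1, e2, hb, h1]
    rcases ha4 with h | h <;> rw [h] <;> norm_num

private theorem n4a_Icc (Y : ℕ) : Finset.Icc (-((Y + 1 : ℕ) : ℤ)) ((Y + 1 : ℕ) : ℤ) =
    insert (((Y + 1 : ℕ) : ℤ)) (insert (-((Y + 1 : ℕ) : ℤ)) (Finset.Icc (-(Y : ℤ)) Y)) := by
  ext x
  rw [Finset.mem_insert, Finset.mem_insert, Finset.mem_Icc, Finset.mem_Icc]
  push_cast
  omega

private theorem n4a_U (a : ℤ) (ha : a % 2 = 1) (Y : ℕ) :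
    ∑ b ∈ Finset.Icc (-(Y : ℤ)) Y, kap (⟨a, b⟩ : Zs) = if Y % 4 < 2 then 1 else -1 := by
  induction Y with
  | zero =>
    have h0 : ¬ a % 2 = 0 := by omega
    simp [kap, h0]
  | succ Y ih =>
    rw [n4a_Icc, Finset.sum_insert, Finset.sum_insert, ih, ← add_assoc, n4a_pair a _ ha]
    · have hY : Y % 4 = 0 ∨ Y % 4 = 1 ∨ Y % 4 = 2 ∨ Y % 4 = 3 := by omega
      push_cast
      rcases hY with h | h | h | h
      · have h1 : ((Y : ℤ) + 1) % 4 = 1 := by omega
        have h2 : (Y + 1) % 4 = 1 := by omega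
        rw [h1, h2, h]; norm_num
      · have h1 : ((Y : ℤ) + 1) % 4 = 2 := by omega
        have h2 : (Y + 1) % 4 = 2 := by omega
        rw [h1, h2, h]; norm_num
      · have h1 : ((Y : ℤ) + 1) % 4 = 3 := by omega
        have h2 : (Y + 1) % 4 = 3 := by omega
        rw [h1, h2, h]; norm_num
      · have h1 : ((Y : ℤ) + 1) % 4 = 0 := by omega
        have h2 : (Y + 1) % 4 = 0 := by omega
        rw [h1, h2, h]; norm_num
    · rw [Finset.mem_Icc]; push_cast; omega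
    · rw [Finset.mem_insert, Finset.mem_Icc]; push_cast; omega

private theorem n4a_inner (n : ℕ) (a : ℤ) :
    ‖∑ b ∈ Finset.Icc (-(n : ℤ)) n, n4a_F n a b‖ ≤ if a ^ 2 ≤ (n : ℤ) then 1 else 0 := by
  by_cases h : a ^ 2 ≤ (n : ℤ)
  · rw [if_pos h]
    rcases Int.emod_two_eq_zero_or_one a with ha | ha
    · have h1 : ∑ b ∈ Finset.Icc (-(n : ℤ)) n, n4a_F n a b = 0 := by
        refine Finset.sum_eq_zero fun b _ => ?_
        unfold n4a_F kap
        rw [if_pos ha, ite_self]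
      rw [h1, _root_.norm_zero]; exact zero_le_one
    · obtain ⟨m, hm⟩ := Int.eq_ofNat_of_zero_le (by linarith : 0 ≤ (n : ℤ) - a ^ 2)
      have hset : (Finset.Icc (-(n : ℤ)) n).filter
          (fun b => 1 ≤ a ^ 2 + 2 * b ^ 2 ∧ a ^ 2 + 2 * b ^ 2 ≤ (n : ℤ)) =
          Finset.Icc (-(Nat.sqrt (m / 2) : ℤ)) (Nat.sqrt (m / 2)) := by
        ext b
        rw [Finset.mem_filter, Finset.mem_Icc, Finset.mem_Icc]
        have hb : a ^ 2 + 2 * b ^ 2 ≤ (n : ℤ) ↔ b.natAbs ≤ Nat.sqrt (m / 2) := by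
          rw [Nat.le_sqrt, Nat.le_div_iff_mul_le (by norm_num)]
          have e1 : ((b.natAbs * b.natAbs * 2 : ℕ) : ℤ) = 2 * b ^ 2 := by
            push_cast
            have := sq_abs b
            nlinarith
          constructor
          · intro h1
            have h2 : ((b.natAbs * b.natAbs * 2 : ℕ) : ℤ) ≤ (m : ℤ) := by
              rw [e1, ← hm]; linarith
            exact_mod_cast h2
          · intro h1
            have h2 : ((b.natAbs * b.natAbs * 2 : ℕ) : ℤ) ≤ (m : ℤ) := by exact_mod_cast h1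
            rw [e1, ← hm] at h2
            linarith
        have ha1 : 1 ≤ a ^ 2 := by
          have : a ≠ 0 := by rintro rfl; simp at ha
          have := sq_pos_of_ne_zero this
          omega
        have hsn : Nat.sqrt (m / 2) ≤ n := by
          have h1 := Nat.sqrt_le_self (m / 2)
          have h2 : m ≤ n := by
            have : (m : ℤ) ≤ n := by rw [← hm]; linarith [sq_nonneg a]
            exact_mod_cast this
          omega
        have h3 := sq_nonneg b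
        constructor
        · rintro ⟨h1, h2, h4⟩
          have := hb.1 h4
          omega
        · rintro ⟨h1, h2⟩
          refine ⟨by omega, by linarith, hb.2 (by omega)⟩
      unfold n4a_F
      rw [← Finset.sum_filter, hset, n4a_U a ha]
      split_ifs <;> simp
  · rw [if_neg h]
    have h1 : ∑ b ∈ Finset.Icc (-(n : ℤ)) n, n4a_F n a b = 0 := by
      refine Finset.sum_eq_zero fun b _ => ?_
      unfold n4a_F
      rw [if_neg]
      intro hc
      have := sq_nonneg b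
      exact h (by linarith [hc.2])
    rw [h1, _root_.norm_zero]

private theorem n4a_count (n : ℕ) : ∑ a ∈ Finset.Icc (-(n : ℤ)) n,
    (if a ^ 2 ≤ (n : ℤ) then (1 : ℝ) else 0) ≤ 2 * (Nat.sqrt n : ℝ) + 1 := by
  rw [← Finset.sum_filter, Finset.sum_const, nsmul_eq_mul, mul_one]
  have h1 : (Finset.Icc (-(n : ℤ)) n).filter (fun a => a ^ 2 ≤ (n : ℤ)) ⊆
      Finset.Icc (-(Nat.sqrt n : ℤ)) (Nat.sqrt n) := by
    intro a ha
    rw [Finset.mem_filter] at ha
    rw [Finset.mem_Icc]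
    have h2 : a.natAbs ≤ Nat.sqrt n := by
      rw [Nat.le_sqrt]
      have e1 : ((a.natAbs * a.natAbs : ℕ) : ℤ) = a ^ 2 := by
        push_cast
        have := sq_abs a
        nlinarith
      have h3 : ((a.natAbs * a.natAbs : ℕ) : ℤ) ≤ (n : ℤ) := by rw [e1]; exact ha.2
      exact_mod_cast h3
    omega
  have h2 := Finset.card_le_card h1
  rw [Int.card_Icc] at h2
  have h3 : (Nat.sqrt n + 1 - -(Nat.sqrt n : ℤ)).toNat = 2 * Nat.sqrt n + 1 := by omega
  rw [h3] at h2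
  exact_mod_cast h2

theorem rr_psum (n : ℕ) : ‖∑ k ∈ Finset.Icc 1 n, rr k‖ ≤ 2 * Real.sqrt n := by
  rcases Nat.eq_zero_or_pos n with rfl | hn
  · simp
  rw [n4a_total, norm_div]
  have h1 : ‖∑ a ∈ Finset.Icc (-(n : ℤ)) n, ∑ b ∈ Finset.Icc (-(n : ℤ)) n, n4a_F n a b‖ ≤
      2 * (Nat.sqrt n : ℝ) + 1 :=
    (norm_sum_le _ _).trans ((Finset.sum_le_sum fun a _ => n4a_inner n a).trans (n4a_count n))
  have h2 : (Nat.sqrt n : ℝ) ≤ Real.sqrt n := Real.nat_sqrt_le_real_sqrt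
  have h3 : 1 ≤ Real.sqrt n := by
    rw [Real.one_le_sqrt]
    exact_mod_cast hn
  have h4 : ‖(2 : ℂ)‖ = 2 := by simp
  rw [h4, div_le_iff₀ (by norm_num)]
  linarith

end Pool.Agent.TM32
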